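import Pool.Agent.T9h46.DP.UCirc
import Pool.Agent.T9h89.DP.Tour
import Pool.Agent.T9h89.DP.Fam
import Pool.Agent.T9h8.DP.Hash
import Pool.Agent.T9h22.DP.Opt
import Pool.Agent.T9h77.DP.UExact
import Pool.Agent.T9h77.DP.UStep
import Pool.Agent.T9h51.DP.UMain
import Pool.Agent.T9h51.DP.Const

/-!
# The upper bound
-/

set_option autoImplicit false

namespace Pool.Agent.T9h21.DP

open Pool.Agent.T9h48.SC Pool.Agent.T9h48.TSP

theorem upper0 : U_main := by
  have htour := Pool.Agent.T9h89.DP.uTour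
  have hfam := Pool.Agent.T9h89.DP.uFam
  exact Pool.Agent.T9h51.DP.uMain Pool.Agent.T9h46.DP.uCirc htour
    (Pool.Agent.T9h77.DP.uStep hfam htour (Pool.Agent.T9h22.DP.uOpt Pool.Agent.T9h8.DP.uHash htour))
    (Pool.Agent.T9h77.DP.uExact hfam htour)

/-- **The upper bound** -/
theorem upper : ∃ K k : ℝ, 0 < K ∧ 1 < k ∧ ∀ ρ : ℝ, 1 ≤ ρ → ∀ n : ℕ, 2 ≤ n →
    ∃ C : TropCircuit (Fin n × Fin n), (∀ N, Solves C N ρ) ∧
      (C.numAdd : ℝ) ≤ Real.exp (K * (n / k ^ ρ + Real.log n ^ 2)) := by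
  obtain ⟨K, hK, h⟩ := upper0
  refine ⟨4 * K, (4 / 3 : ℝ) ^ (1 / 200 : ℝ), by positivity,
    Real.one_lt_rpow (by norm_num) (by norm_num), ?_⟩
  intro ρ hρ n hn
  have hn2 : (2 : ℝ) ≤ n := by exact_mod_cast hn
  have hlog2 : (0.69 : ℝ) ≤ Real.log n := by
    have h1 := Real.log_two_gt_d9
    have h2 := Real.log_le_log (by norm_num) hn2
    linarith
  set a := ⌊(ρ - 1) / 200⌋₊ with ha
  set b := ⌊5 * Real.log n + 1⌋₊ with hb
  have hb1 : ((min a b : ℕ) : ℝ) ≤ 5 * Real.log n + 1 := by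
    refine le_trans ?_ (Nat.floor_le (by linarith : 0 ≤ 5 * Real.log n + 1))
    exact_mod_cast min_le_right a b
  have ha1 : 200 * ((min a b : ℕ) : ℝ) + 1 ≤ ρ := by
    have h1 : ((min a b : ℕ) : ℝ) ≤ (ρ - 1) / 200 := by
      refine le_trans ?_ (Nat.floor_le (by linarith : 0 ≤ (ρ - 1) / 200))
      exact_mod_cast min_le_left a b
    linarith
  obtain ⟨C, hC, hadd⟩ := h n (min a b) hn hb1
  refine ⟨C, fun N => Pool.Agent.T9h51.DP.solves_mono ha1 (hC N), hadd.trans ?_⟩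
  apply Real.exp_le_exp.2
  have hk : ((4 / 3 : ℝ) ^ (1 / 200 : ℝ)) ^ ρ = (4 / 3 : ℝ) ^ (ρ / 200) := by
    rw [← Real.rpow_mul (by norm_num)]
    congr 1
    ring
  rw [hk]
  set q : ℝ := (4 / 3 : ℝ) ^ (ρ / 200) with hq
  have hq0 : 0 < q := Real.rpow_pos_of_pos (by norm_num) _
  have hnq : 0 ≤ (n : ℝ) / q := by positivity
  have hkey : (3 / 4 : ℝ) ^ (min a b) * n ≤ 2 * (n / q) + 3 * Real.log n ^ 2 := by
    rcases le_total a b with hab | hab
    · rw [min_eq_left hab]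
      have h1 : ρ / 200 ≤ (a : ℝ) + 2 := by
        have := Nat.lt_floor_add_one ((ρ - 1) / 200)
        rw [← ha] at this
        linarith
      have h2 : q ≤ (4 / 3 : ℝ) ^ a * 2 := by
        have e1 : ρ / 200 ≤ (a : ℝ) + 201 / 200 := by
          have := Nat.lt_floor_add_one ((ρ - 1) / 200)
          rw [← ha] at this
          linarith
        calc q ≤ (4 / 3 : ℝ) ^ ((a : ℝ) + 201 / 200) :=
              Real.rpow_le_rpow_of_exponent_le (by norm_num) e1
          _ = (4 / 3 : ℝ) ^ a * (4 / 3 : ℝ) ^ (201 / 200 : ℝ) := by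
              rw [Real.rpow_add (by norm_num), Real.rpow_natCast]
          _ ≤ (4 / 3 : ℝ) ^ a * (4 / 3 : ℝ) ^ (2 : ℝ) :=
              mul_le_mul_of_nonneg_left
                (Real.rpow_le_rpow_of_exponent_le (by norm_num) (by norm_num)) (by positivity)
          _ ≤ (4 / 3 : ℝ) ^ a * 2 := by
              refine mul_le_mul_of_nonneg_left ?_ (by positivity)
              rw [Real.rpow_two]
              norm_num
      have h3 : (3 / 4 : ℝ) ^ a = ((4 / 3 : ℝ) ^ a)⁻¹ := by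
        rw [← inv_pow]
        norm_num
      have h4 : (0 : ℝ) < (4 / 3 : ℝ) ^ a := by positivity
      have h5 : (3 / 4 : ℝ) ^ a ≤ 2 / q := by
        rw [h3, inv_eq_one_div, div_le_div_iff₀ h4 hq0]
        linarith
      have h6 : (3 / 4 : ℝ) ^ a * n ≤ 2 / q * n := mul_le_mul_of_nonneg_right h5 (Nat.cast_nonneg _)
      have h7 : 2 / q * (n : ℝ) = 2 * (n / q) := by ring
      have h8 : 0 ≤ Real.log n ^ 2 := sq_nonneg _
      linarith
    · rw [min_eq_right hab]
      have h1 : 5 * Real.log n ≤ (b : ℝ) := by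
        have := Nat.lt_floor_add_one (5 * Real.log n + 1)
        rw [← hb] at this
        linarith
      have h2 : (1 / 4 : ℝ) ≤ Real.log (4 / 3) := by
        have := Real.one_sub_inv_le_log_of_pos (show (0 : ℝ) < 4 / 3 by norm_num)
        norm_num at this ⊢
        linarith
      have h3 : (n : ℝ) ≤ (4 / 3 : ℝ) ^ b := by
        rw [← Real.log_le_log_iff (by linarith) (by positivity), Real.log_pow]
        nlinarith
      have h4 : (0 : ℝ) < (4 / 3 : ℝ) ^ b := by positivity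
      have h5 : (3 / 4 : ℝ) ^ b = ((4 / 3 : ℝ) ^ b)⁻¹ := by
        rw [← inv_pow]
        norm_num
      have h6 : (3 / 4 : ℝ) ^ b * n ≤ 1 := by
        rw [h5, inv_mul_le_iff₀ h4, mul_one]
        exact h3
      nlinarith
  have hlsq : 0 ≤ Real.log n ^ 2 := sq_nonneg _
  calc K * ((3 / 4 : ℝ) ^ (min a b) * n + Real.log n ^ 2)
      ≤ K * ((2 * (n / q) + 3 * Real.log n ^ 2) + Real.log n ^ 2) :=
        mul_le_mul_of_nonneg_left (by linarith) hK.le
    _ ≤ 4 * K * (n / q + Real.log n ^ 2) := by nlinarith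

end Pool.Agent.T9h21.DP
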