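import Pool.Agent.T9h21.DP.Spec2

/-!
# Assembly of the explicit theorem
-/

open Finset
open scoped ENNReal

set_option autoImplicit false

namespace Pool.Agent.T9h21.DP

open Pool.Agent.T9h48.SC Pool.Agent.T9h48.TSP

lemma avg_nonneg {m : ℕ} {F : Cfg m → ℝ} (h : ∀ X, 0 ≤ F X) : 0 ≤ avg F :=
  div_nonneg (sum_nonneg fun X _ => h X) (by positivity)

lemma ind_nonneg {m : ℕ} (D : Finset (Cut m)) (X : Cfg m) (I : Finset (Fin (m + 1))) :
    0 ≤ ind D X I := by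
  unfold ind
  split_ifs <;> norm_num

lemma Phi_nonneg {m : ℕ} (L R : ℕ) (D : Finset (Cut m)) : 0 ≤ Phi L R D :=
  sum_nonneg fun _ _ => avg_nonneg fun _ => ind_nonneg _ _ _

lemma S_mono_le {V : Type} {M N : Multiset V} (h : M ≤ N) (f : V → ℕ) : S M f ≤ S N f := by
  obtain ⟨K, rfl⟩ := Multiset.le_iff_exists_add.1 h
  rw [S_add]
  exact Nat.le_add_right _ _

lemma S_list_sum {α V : Type} (Q : List (α × Multiset V)) (f : V → ℕ) (b : ℝ)
    (h : ∀ q ∈ Q, b ≤ (S q.2 f : ℝ)) : (Q.length : ℝ) * b ≤ (S (Q.map Prod.snd).sum f : ℝ) := by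
  induction Q with
  | nil => simp
  | cons q Q ih =>
    rw [List.length_cons, List.map_cons, List.sum_cons, S_add]
    have h1 := h q (by simp)
    have h2 := ih fun q' hq' => h q' (by simp [hq'])
    push_cast
    linarith

/-- a good placement exists -/
lemma exists_good {m : ℕ} (htail : S_tail2 m) {L R : ℕ} (hL : 1 ≤ L) (hR : 4 ≤ R)
    (hm : 4 * L ^ 4 * (R ^ L) ^ 2 ≤ m + 1) (C : TropCircuit (Pr m))
    (hcon : ((C.numAdd : ℝ) + 1) ^ 3 < Real.exp (((m : ℝ) + 1) / (288 * (R ^ L) ^ 2 * L ^ 4))) :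
    ∃ X : Cfg m, ∀ D, Fam C D → 1 ≤ Phi L R D → Phi L R D < 2 → ((m : ℝ) + 1) / 4 < G L R D X := by
  classical
  set E : ℝ := ((m : ℝ) + 1) / (288 * (R ^ L) ^ 2 * L ^ 4) with hE
  let ι := Ad C × Option (Ad C) × Option (Ad C)
  let DD : ι → Finset (Cut m) := fun i =>
    Gd C (Sum.inr (Sum.inr i.1.1)) \ (GdO C i.2.1 ∪ GdO C i.2.2)
  let bad : ι → Finset (Cfg m) := fun i =>
    if 1 ≤ Phi L R (DD i) ∧ Phi L R (DD i) < 2 then
      univ.filter fun X => G L R (DD i) X ≤ ((m : ℝ) + 1) / 4 else ∅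
  have hbad : ∀ i, ((bad i).card : ℝ) ≤ ((m : ℝ) + 1) ^ (m + 1) * Real.exp (-E) := by
    intro i
    simp only [bad]
    split_ifs with h
    · exact htail L R (DD i) hL hR hm h.1 h.2
    · rw [card_empty, Nat.cast_zero]
      positivity
  have hcard : (Fintype.card ι : ℝ) ≤ ((C.numAdd : ℝ) + 1) ^ 3 := by
    have h1 : Fintype.card (Ad C) = C.numAdd := by
      rw [Fintype.card_subtype]
      rfl
    have h2 : Fintype.card ι = C.numAdd * ((C.numAdd + 1) * (C.numAdd + 1)) := by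
      simp only [ι, Fintype.card_prod, Fintype.card_option, h1]
    rw [h2]
    push_cast
    have h3 : (0 : ℝ) ≤ C.numAdd := Nat.cast_nonneg _
    nlinarith [mul_nonneg h3 h3, sq_nonneg ((C.numAdd : ℝ) + 1)]
  have hlt : ((univ.biUnion bad).card : ℝ) < ((m : ℝ) + 1) ^ (m + 1) := by
    calc ((univ.biUnion bad).card : ℝ) ≤ ((∑ i, (bad i).card : ℕ) : ℝ) := by
          exact_mod_cast card_biUnion_le
      _ = ∑ i, ((bad i).card : ℝ) := by push_cast; rfl
      _ ≤ ∑ _i : ι, ((m : ℝ) + 1) ^ (m + 1) * Real.exp (-E) := sum_le_sum fun i _ => hbad i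
      _ = (Fintype.card ι : ℝ) * (((m : ℝ) + 1) ^ (m + 1) * Real.exp (-E)) := by
          rw [sum_const, card_univ, nsmul_eq_mul]
      _ ≤ ((C.numAdd : ℝ) + 1) ^ 3 * (((m : ℝ) + 1) ^ (m + 1) * Real.exp (-E)) :=
          mul_le_mul_of_nonneg_right hcard (by positivity)
      _ < Real.exp E * (((m : ℝ) + 1) ^ (m + 1) * Real.exp (-E)) :=
          mul_lt_mul_of_pos_right hcon (by positivity)
      _ = ((m : ℝ) + 1) ^ (m + 1) := by
          rw [Real.exp_neg]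
          have := (Real.exp_pos E).ne'
          field_simp
  have hne : ∃ X, X ∉ univ.biUnion bad := by
    by_contra hall
    push Not at hall
    have h1 : univ.biUnion bad = univ := eq_univ_iff_forall.2 hall
    rw [h1, card_univ, Fintype.card_fun, Fintype.card_fin] at hlt
    push_cast at hlt
    exact lt_irrefl _ hlt
  obtain ⟨X, hX⟩ := hne
  refine ⟨X, ?_⟩
  rintro D ⟨g, h, h', rfl⟩ h1 h2
  by_contra hle
  apply hX
  rw [mem_biUnion]
  refine ⟨(g, h, h'), mem_univ _, ?_⟩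
  simp only [bad, DD]
  rw [if_pos ⟨h1, h2⟩, mem_filter]
  exact ⟨mem_univ _, not_lt.1 hle⟩

theorem fin2 (m : ℕ) (hp : S_piece m) (hr : S_root m) (hi : S_inst m) (hphi : S_phi2 m)
    (hcov : S_cov m) (htail : S_tail2 m) : S_fin2 m := by
  intro L R C ρ hL hR hm hρ hC hLρ
  by_contra hcon
  rw [not_le] at hcon
  obtain ⟨X, hX⟩ := exists_good htail hL hR hm C hcon
  obtain ⟨M, c, hM, hc, hcost⟩ := hi C ρ hρ hC X
  have hL4 : 1 ≤ L ^ 4 := Nat.one_le_pow _ _ hL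
  have hR1 : 1 ≤ R := by omega
  have hRL : 1 ≤ R ^ L := Nat.one_le_pow _ _ hR1
  have hRm : R ^ L ≤ m := by nlinarith
  obtain ⟨hleaf, hbig⟩ := hphi.2 L R hL hR hm
  obtain ⟨Q, hQM, hQ, hQlen⟩ := hp C (fun χ => Phi L R {χ}) (fun χ => Phi_nonneg _ _ _)
    (fun e => by rw [hphi.1]; exact hleaf e) C.out M c hM hc
  have h1 : (L : ℝ) - 1 < 3 * Q.length + 1 := by
    refine lt_of_le_of_lt (hbig.trans ?_) hQlen
    rw [← hphi.1]
    refine sum_le_sum_of_subset_of_nonneg ?_ fun _ _ _ => Phi_nonneg _ _ _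
    intro χ hχ
    obtain ⟨hu, hv⟩ := (mem_filter.1 hχ).2
    exact hr C ρ hC χ hu hv
  have h2 : ∀ q ∈ Q, ((m : ℝ) + 1) / 56 ≤ (S q.2 (gap X) : ℝ) := by
    intro q hq
    obtain ⟨hfam, hhit, hge, hlt⟩ := hQ q hq
    rw [hphi.1] at hge hlt
    have e1 := hX q.1 hfam hge hlt
    have e2 := hcov L R q.1 X q.2 hR1 hRm hhit
    linarith
  have h3 := S_list_sum Q (gap X) _ h2
  have h4 : (S (Q.map Prod.snd).sum (gap X) : ℝ) ≤ S M (gap X) := by
    exact_mod_cast S_mono_le hQM (gap X)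
  have h5 : (Q.length : ℝ) * (((m : ℝ) + 1) / 56) ≤ 3 * ρ * (m + 1) := h3.trans (h4.trans hcost)
  have hpos : (0 : ℝ) < (m : ℝ) + 1 := by positivity
  have h6 : (Q.length : ℝ) ≤ 168 * ρ := by
    have e : (Q.length : ℝ) * ((m : ℝ) + 1) ≤ 168 * ρ * (m + 1) := by linarith
    exact le_of_mul_le_mul_right e hpos
  linarith

end Pool.Agent.T9h21.DP
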