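import Pool.Agent.T9h29.DP.Corr
import Pool.Agent.T9h21.DP.Fin2

/-!
# Contents of nested sets: the sharper form, and second moments
-/

open Finset

set_option autoImplicit false

namespace Pool.Agent.T9h21.DP

open Pool.Agent.T9h29.DP (avg_add avg_sum avg_const_mul avg_const avg_mono ind_le_one ind_sq
  exists_disjoint card_arcL card_arcR N_pos)

lemma avg_mul_le {m : ℕ} (F H : Cfg m → ℝ) :
    avg (fun X => F X * H X) ≤ √((avg fun X => F X ^ 2) * avg fun X => H X ^ 2) := by
  apply Real.le_sqrt_of_sq_le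
  unfold avg
  have h := Finset.sum_mul_sq_le_sq_mul_sq (univ : Finset (Cfg m)) F H
  have hN := N_pos (m := m)
  rw [div_pow, div_mul_div_comm, ← sq (((m : ℝ) + 1) ^ (m + 1))]
  exact div_le_div_of_nonneg_right h (by positivity)

lemma sqrt_add_le' {a b : ℝ} (ha : 0 ≤ a) (hb : 0 ≤ b) : √(a + b) ≤ √a + √b := by
  refine Real.sqrt_le_iff.2 ⟨by positivity, ?_⟩
  nlinarith [Real.sq_sqrt ha, Real.sq_sqrt hb, mul_nonneg (Real.sqrt_nonneg a) (Real.sqrt_nonneg b)]

theorem corr2 (m : ℕ) : S_sym m → S_dis m → S_corr2 m := by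
  intro hsym hdis D I J k hIJ hk hkI
  obtain ⟨f, hf, hd⟩ := exists_disjoint I.card k J hkI
  set c : ℝ := 2 * (I.card : ℝ) ^ 2 / (m + 1) with hc
  have hc0 : 0 ≤ c := by positivity
  set μ : ℝ := avg fun X => ind D X I with hμ
  set ν : ℝ := avg fun X => ind D X J with hν
  have hμ0 : 0 ≤ μ := avg_nonneg fun X => ind_nonneg D X I
  have hν0 : 0 ≤ ν := avg_nonneg fun X => ind_nonneg D X J
  have hν1 : ν ≤ 1 := by
    have := avg_mono (m := m) (F := fun X => ind D X J) (G := fun _ => 1)
      (fun X => ind_le_one D X J)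
    rwa [avg_const] at this
  have hkR : (0 : ℝ) < k := by exact_mod_cast hk
  -- means
  have h1 : ∀ a < k, (avg fun X => ind D X (f a)) = μ := by
    intro a ha
    have := hsym D I I (f a) (f a) (subset_refl _) (subset_refl _) (hf a ha).2.symm
      (hf a ha).2.symm
    simp only [ind_sq] at this
    exact this.symm
  have h2 : ∀ a < k, (avg fun X => ind D X (f a) * ind D X J) =
      avg fun X => ind D X I * ind D X J := by
    intro a ha
    exact (hsym D I J (f a) J hIJ (hf a ha).1 (hf a ha).2.symm rfl).symm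
  set Z : Cfg m → ℝ := fun X => (1 / k : ℝ) * ∑ a ∈ range k, ind D X (f a) with hZ
  have h3 : (avg fun X => Z X * ind D X J) = avg fun X => ind D X I * ind D X J := by
    have e : (fun X => Z X * ind D X J) =
        fun X => (1 / k : ℝ) * ∑ a ∈ range k, ind D X (f a) * ind D X J := by
      funext X
      rw [hZ, mul_assoc, Finset.sum_mul]
    rw [e, avg_const_mul, avg_sum]
    rw [Finset.sum_congr rfl fun a ha => h2 a (Finset.mem_range.1 ha)]
    rw [Finset.sum_const, Finset.card_range, nsmul_eq_mul]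
    field_simp
  have h4 : avg Z = μ := by
    rw [hZ, avg_const_mul, avg_sum]
    rw [Finset.sum_congr rfl fun a ha => h1 a (Finset.mem_range.1 ha)]
    rw [Finset.sum_const, Finset.card_range, nsmul_eq_mul]
    field_simp
  -- second moment of `Z`
  have h5 : (avg fun X => Z X ^ 2) ≤ μ ^ 2 + (μ / k + c) := by
    have e : (fun X => Z X ^ 2) =
        fun X => (1 / k : ℝ) ^ 2 * ∑ a ∈ range k, ∑ b ∈ range k, ind D X (f a) * ind D X (f b) := by
      funext X
      rw [hZ]
      simp only
      rw [mul_pow, sq (∑ a ∈ range k, ind D X (f a)), Finset.sum_mul_sum]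
    rw [e, avg_const_mul, avg_sum]
    have h6 : ∀ a ∈ range k, (avg fun X => ∑ b ∈ range k, ind D X (f a) * ind D X (f b)) ≤
        μ + k * (μ ^ 2 + c) := by
      intro a ha
      rw [avg_sum]
      have ha' := Finset.mem_range.1 ha
      have h7 : ∀ b ∈ range k, (avg fun X => ind D X (f a) * ind D X (f b)) ≤
          (if a = b then μ else 0) + (μ ^ 2 + c) := by
        intro b hb
        have hb' := Finset.mem_range.1 hb
        by_cases hab : a = b
        · subst hab
          simp only [ind_sq, if_true]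
          rw [h1 a ha']
          have : 0 ≤ μ ^ 2 := sq_nonneg _
          linarith
        · rw [if_neg hab, zero_add]
          have := hdis D (f a) (f b) (hd a ha' b hb' hab)
          rw [h1 a ha', h1 b hb', (hf a ha').2, (hf b hb').2] at this
          refine this.trans (le_of_eq ?_)
          rw [hc]
          ring
      refine (Finset.sum_le_sum h7).trans ?_
      rw [Finset.sum_add_distrib, Finset.sum_const, Finset.card_range, nsmul_eq_mul]
      rw [Finset.sum_ite_eq (range k) a (fun _ => μ), if_pos ha]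
    have h8 : ∑ a ∈ range k, (avg fun X => ∑ b ∈ range k, ind D X (f a) * ind D X (f b)) ≤
        k * (μ + k * (μ ^ 2 + c)) := by
      refine (Finset.sum_le_sum h6).trans ?_
      rw [Finset.sum_const, Finset.card_range, nsmul_eq_mul]
    refine (mul_le_mul_of_nonneg_left h8 (by positivity)).trans (le_of_eq ?_)
    field_simp
    ring
  -- conclusion
  have h9 : (avg fun X => ind D X I * ind D X J) - μ * ν =
      avg fun X => (Z X - μ) * ind D X J := by
    have e : (fun X => (Z X - μ) * ind D X J) =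
        fun X => Z X * ind D X J + (-μ) * ind D X J := by
      funext X; ring
    rw [e, avg_add, avg_const_mul, h3]
    ring
  have h11 : (avg fun X => (Z X - μ) ^ 2) ≤ μ / k + c := by
    have e : (fun X => (Z X - μ) ^ 2) = fun X => (Z X ^ 2 + (-2 * μ) * Z X) + μ ^ 2 := by
      funext X; ring
    rw [e, avg_add, avg_add, avg_const_mul, avg_const, h4]
    nlinarith [h5]
  have h10 : (avg fun X => (Z X - μ) * ind D X J) ≤ √((μ / k + c) * ν) := by
    refine (avg_mul_le _ _).trans (Real.sqrt_le_sqrt ?_)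
    have e : (fun X => ind D X J ^ 2) = fun X => ind D X J := by
      funext X
      rw [sq, ind_sq]
    rw [e]
    exact mul_le_mul_of_nonneg_right h11 hν0
  have h12 : √((μ / k + c) * ν) ≤ √(μ * ν / k) + √c := by
    have e : (μ / k + c) * ν = μ * ν / k + c * ν := by ring
    rw [e]
    refine (sqrt_add_le' (by positivity) (by positivity)).trans ?_
    have : √(c * ν) ≤ √c := Real.sqrt_le_sqrt (by nlinarith)
    linarith
  rw [← h9] at h10
  linarith

/-! ### Second moments -/

/-- `2 ^ (-|i - j|)` -/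
noncomputable def dd (i j : ℕ) : ℝ := (1 / 2 : ℝ) ^ ((i - j) + (j - i))

lemma dd_comm (i j : ℕ) : dd i j = dd j i := by
  unfold dd
  rw [add_comm]

lemma dd_nonneg (i j : ℕ) : 0 ≤ dd i j := by
  unfold dd
  positivity

lemma sum_dd {L i : ℕ} (hi : i < L) : ∑ j ∈ range L, dd i j ≤ 3 := by
  rw [← Finset.sum_range_add_sum_Ico (dd i) (show i + 1 ≤ L from hi)]
  have h1 : ∑ j ∈ range (i + 1), dd i j ≤ 2 := by
    have e : ∑ j ∈ range (i + 1), dd i j = ∑ j ∈ range (i + 1), (1 / 2 : ℝ) ^ j := by
      rw [← Finset.sum_range_reflect]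
      refine Finset.sum_congr rfl fun j hj => ?_
      have := Finset.mem_range.1 hj
      unfold dd
      congr 1
      omega
    rw [e]
    exact sum_geometric_two_le _
  have h2 : ∑ j ∈ Ico (i + 1) L, dd i j ≤ 1 := by
    rw [Finset.sum_Ico_eq_sum_range]
    have e : ∀ k ∈ range (L - (i + 1)), dd i (i + 1 + k) = (1 / 2 : ℝ) * (1 / 2) ^ k := by
      intro k _
      unfold dd
      rw [← pow_succ']
      congr 1
      omega
    rw [Finset.sum_congr rfl e, ← Finset.mul_sum]
    have := sum_geometric_two_le (L - (i + 1))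
    linarith
  linarith

/-- second moment for a nested family -/
lemma mom2_aux {m : ℕ} (hsym : S_sym m) (hcorr : S_corr2 m) (L R : ℕ) (D : Finset (Cut m))
    (hL : 1 ≤ L) (hR : 4 ≤ R) (hm : 4 * L ^ 4 * (R ^ L) ^ 2 ≤ m + 1)
    (A : ℕ → Finset (Fin (m + 1))) (hAc : ∀ i < L, (A i).card = R ^ (i + 1))
    (hAm : ∀ i j, i ≤ j → A i ⊆ A j) :
    (avg fun X => (∑ i ∈ range L, ind D X (A i)) ^ 2) ≤
      3 * Phi L R D + Phi L R D ^ 2 + 1 := by
  have hR1 : 1 ≤ R := by omega
  have hRL : R ^ L ≤ m + 1 := by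
    have h1 : 1 ≤ L ^ 4 := Nat.one_le_pow _ _ hL
    have h2 : 1 ≤ R ^ L := Nat.one_le_pow _ _ hR1
    nlinarith
  have hle : ∀ i < L, R ^ (i + 1) ≤ R ^ L := fun i hi => Nat.pow_le_pow_right hR1 hi
  set p : ℕ → ℝ := fun i => avg fun X => ind D X (A i) with hp
  have hp0 : ∀ i, 0 ≤ p i := fun i => avg_nonneg fun X => ind_nonneg D X _
  have hsum : ∑ i ∈ range L, p i = Phi L R D := by
    unfold Phi
    refine Finset.sum_congr rfl fun i hi => ?_
    have hi' := Finset.mem_range.1 hi
    have hc : (A i).card = (arcL (0 : Fin (m + 1)) (R ^ (i + 1))).card := by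
      rw [hAc i hi', card_arcL 0 ((hle i hi').trans hRL)]
    have := hsym D (A i) (A i) (arcL 0 (R ^ (i + 1))) (arcL 0 (R ^ (i + 1)))
      (subset_refl _) (subset_refl _) hc hc
    simp only [ind_sq] at this
    exact this
  have hLR : (0 : ℝ) < (L : ℝ) ^ 2 := by positivity
  -- the error
  have herr : ∀ i < L, √(2 * ((A i).card : ℝ) ^ 2 / (m + 1)) ≤ 1 / (L : ℝ) ^ 2 := by
    intro i hi
    apply Real.sqrt_le_iff.2
    refine ⟨by positivity, ?_⟩
    have hmm : (4 : ℝ) * (L : ℝ) ^ 4 * ((R : ℝ) ^ L) ^ 2 ≤ (m : ℝ) + 1 := by exact_mod_cast hm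
    have hL4 : (0 : ℝ) < (L : ℝ) ^ 4 := by positivity
    have hRp : (0 : ℝ) < (R : ℝ) ^ L := by
      have : (0 : ℝ) < R := by exact_mod_cast hR1
      positivity
    have h3 : ((A i).card : ℝ) ≤ (R : ℝ) ^ L := by
      rw [hAc i hi]
      exact_mod_cast hle i hi
    have h4 : ((A i).card : ℝ) ^ 2 ≤ ((R : ℝ) ^ L) ^ 2 :=
      pow_le_pow_left₀ (Nat.cast_nonneg _) h3 2
    rw [div_pow, one_pow, div_le_div_iff₀ (by positivity) (by positivity)]
    nlinarith
  -- pairs
  have hpair : ∀ i < L, ∀ j < L, i < j → (avg fun X => ind D X (A i) * ind D X (A j)) ≤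
      p i * p j + 1 / (L : ℝ) ^ 2 + (p i + p j) / 2 * dd i j := by
    intro i hi j hj hij
    have h1 : R ^ (j - i) * (A i).card ≤ (A j).card := by
      rw [hAc i hi, hAc j hj, ← pow_add]
      exact Nat.pow_le_pow_right hR1 (by omega)
    have h2 := hcorr D (A i) (A j) (R ^ (j - i)) (hAm i j hij.le) (Nat.one_le_pow _ _ hR1) h1
    have h3 : √(p i * p j / ((R ^ (j - i) : ℕ) : ℝ)) ≤ (p i + p j) / 2 * dd i j := by
      apply Real.sqrt_le_iff.2
      have hs : 0 ≤ (p i + p j) / 2 := by
        have := hp0 i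
        have := hp0 j
        positivity
      refine ⟨mul_nonneg hs (dd_nonneg i j), ?_⟩
      have e1 : dd i j = (1 / 2 : ℝ) ^ (j - i) := by
        unfold dd
        congr 1
        omega
      have e2 : (4 : ℝ) ^ (j - i) ≤ ((R ^ (j - i) : ℕ) : ℝ) := by
        push_cast
        exact pow_le_pow_left₀ (by norm_num) (by exact_mod_cast hR) _
      have e3 : ((1 / 2 : ℝ) ^ (j - i)) ^ 2 = 1 / 4 ^ (j - i) := by
        rw [← pow_mul, mul_comm, pow_mul, show ((1 : ℝ) / 2) ^ 2 = 1 / 4 by norm_num, one_div_pow]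
      rw [mul_pow, e1, e3]
      have e4 : p i * p j ≤ ((p i + p j) / 2) ^ 2 := by nlinarith [sq_nonneg (p i - p j)]
      have e5 : (0 : ℝ) < 4 ^ (j - i) := by positivity
      calc p i * p j / ((R ^ (j - i) : ℕ) : ℝ) ≤ p i * p j / 4 ^ (j - i) :=
            div_le_div_of_nonneg_left (mul_nonneg (hp0 i) (hp0 j)) e5 e2
        _ ≤ ((p i + p j) / 2) ^ 2 / 4 ^ (j - i) := div_le_div_of_nonneg_right e4 e5.le
        _ = _ := by ring
    have h4 := herr i hi
    linarith
  have hpair2 : ∀ i ∈ range L, ∀ j ∈ range L, (avg fun X => ind D X (A i) * ind D X (A j)) ≤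
      p i * p j + 1 / (L : ℝ) ^ 2 + (p i + p j) / 2 * dd i j := by
    intro i hi j hj
    have hi' := Finset.mem_range.1 hi
    have hj' := Finset.mem_range.1 hj
    rcases lt_trichotomy i j with h | h | h
    · exact hpair i hi' j hj' h
    · subst h
      simp only [ind_sq]
      have e1 : dd i i = 1 := by
        unfold dd
        simp
      rw [e1]
      have h1 : 0 ≤ p i * p i := mul_nonneg (hp0 i) (hp0 i)
      have h2 : 0 ≤ 1 / (L : ℝ) ^ 2 := by positivity
      change p i ≤ _
      linarith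
    · have := hpair j hj' i hi' h
      have e : (fun X => ind D X (A i) * ind D X (A j)) =
          fun X => ind D X (A j) * ind D X (A i) := by
        funext X; ring
      rw [e, mul_comm (p i), add_comm (p i) (p j), dd_comm]
      exact this
  have e : (fun X => (∑ i ∈ range L, ind D X (A i)) ^ 2) =
      fun X => ∑ i ∈ range L, ∑ j ∈ range L, ind D X (A i) * ind D X (A j) := by
    funext X
    rw [sq, Finset.sum_mul_sum]
  rw [e, avg_sum]
  have h1 : ∑ i ∈ range L, (avg fun X => ∑ j ∈ range L, ind D X (A i) * ind D X (A j)) ≤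
      ∑ i ∈ range L, ∑ j ∈ range L,
        (p i * p j + 1 / (L : ℝ) ^ 2 + (p i + p j) / 2 * dd i j) := by
    refine Finset.sum_le_sum fun i hi => ?_
    rw [avg_sum]
    exact Finset.sum_le_sum fun j hj => hpair2 i hi j hj
  have h2 : ∑ i ∈ range L, ∑ j ∈ range L, (p i + p j) / 2 * dd i j ≤ 3 * Phi L R D := by
    have e1 : ∑ i ∈ range L, ∑ j ∈ range L, (p i + p j) / 2 * dd i j =
        ∑ i ∈ range L, p i * ∑ j ∈ range L, dd i j := by
      have e2 : ∑ i ∈ range L, ∑ j ∈ range L, p j / 2 * dd i j =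
          ∑ i ∈ range L, ∑ j ∈ range L, p i / 2 * dd i j := by
        rw [Finset.sum_comm]
        exact Finset.sum_congr rfl fun i _ => Finset.sum_congr rfl fun j _ => by rw [dd_comm]
      have e3 : ∑ i ∈ range L, ∑ j ∈ range L, (p i + p j) / 2 * dd i j =
          ∑ i ∈ range L, ∑ j ∈ range L, p i / 2 * dd i j +
            ∑ i ∈ range L, ∑ j ∈ range L, p j / 2 * dd i j := by
        rw [← Finset.sum_add_distrib]
        refine Finset.sum_congr rfl fun i _ => ?_
        rw [← Finset.sum_add_distrib]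
        exact Finset.sum_congr rfl fun j _ => by ring
      rw [e3, e2, ← Finset.sum_add_distrib]
      refine Finset.sum_congr rfl fun i _ => ?_
      rw [← Finset.sum_add_distrib, Finset.mul_sum]
      exact Finset.sum_congr rfl fun j _ => by ring
    rw [e1, ← hsum, Finset.mul_sum]
    refine Finset.sum_le_sum fun i hi => ?_
    have := sum_dd (Finset.mem_range.1 hi)
    nlinarith [hp0 i]
  have h3 : ∑ i ∈ range L, ∑ j ∈ range L,
      (p i * p j + 1 / (L : ℝ) ^ 2 + (p i + p j) / 2 * dd i j) =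
      (Phi L R D ^ 2 + 1) + ∑ i ∈ range L, ∑ j ∈ range L, (p i + p j) / 2 * dd i j := by
    simp only [Finset.sum_add_distrib]
    congr 1
    congr 1
    · rw [← Finset.sum_mul_sum, hsum, sq]
    · rw [Finset.sum_const, Finset.sum_const, Finset.card_range, smul_smul, nsmul_eq_mul]
      push_cast
      field_simp
  calc _ ≤ _ := h1
    _ = _ := h3
    _ ≤ _ := by linarith

theorem mom2 (m : ℕ) : S_sym m → S_corr2 m → S_mom2 m := by
  intro hsym hcorr L R D l hL hR hm
  have hR1 : 1 ≤ R := by omega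
  have hRL : R ^ L ≤ m + 1 := by
    have h1 : 1 ≤ L ^ 4 := Nat.one_le_pow _ _ hL
    have h2 : 1 ≤ R ^ L := Nat.one_le_pow _ _ hR1
    nlinarith
  have hle : ∀ i < L, R ^ (i + 1) ≤ m + 1 := fun i hi => (Nat.pow_le_pow_right hR1 hi).trans hRL
  constructor
  · refine mom2_aux hsym hcorr L R D hL hR hm (fun i => arcL l (R ^ (i + 1)))
      (fun i hi => card_arcL l (hle i hi)) fun i j hij t ht => ?_
    unfold arcL at ht ⊢
    rw [mem_filter] at ht ⊢
    exact ⟨ht.1, ht.2.trans_le (Nat.pow_le_pow_right hR1 (by omega))⟩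
  · refine mom2_aux hsym hcorr L R D hL hR hm (fun i => arcR l (R ^ (i + 1)))
      (fun i hi => card_arcR l (hle i hi)) fun i j hij t ht => ?_
    unfold arcR at ht ⊢
    rw [mem_filter] at ht ⊢
    exact ⟨ht.1, ht.2.trans_le (Nat.pow_le_pow_right hR1 (by omega))⟩

end Pool.Agent.T9h21.DP
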