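import Pool.Agent.T9h46.DP.Piece
import Pool.Agent.T9h70.DP.Root
import Pool.Agent.T9h70.DP.Inst
import Pool.Agent.T9h60.DP.Phi2
import Pool.Agent.T9h60.DP.Cov
import Pool.Agent.T9h41.DP.Bd
import Pool.Agent.T9h41.DP.Tail2
import Pool.Agent.T9h22.DP.Mcd
import Pool.Agent.T9h6.DP.Sym
import Pool.Agent.T9h6.DP.Dis
import Pool.Agent.T9h51.DP.Main
import Pool.Agent.T9h21.DP.Corr2

/-!
# The lower bound
-/

set_option autoImplicit false

namespace Pool.Agent.T9h21.DP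

theorem fin2_all (m : ℕ) : S_fin2 m := by
  have hsym := Pool.Agent.T9h6.DP.sym m
  have hmom := mom2 m hsym (corr2 m hsym (Pool.Agent.T9h6.DP.dis m))
  exact fin2 m (Pool.Agent.T9h46.DP.piece m) (Pool.Agent.T9h70.DP.root m)
    (Pool.Agent.T9h70.DP.inst m) (Pool.Agent.T9h60.DP.phi2 m) (Pool.Agent.T9h60.DP.cov m)
    (Pool.Agent.T9h41.DP.tail2 m (Pool.Agent.T9h41.DP.eG2 m hsym hmom)
      (Pool.Agent.T9h41.DP.bd m) (Pool.Agent.T9h22.DP.mcd m))

/-- **The lower bound** -/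
theorem lower : S_main := Pool.Agent.T9h51.DP.main fin2_all

end Pool.Agent.T9h21.DP
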