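import Pool.Agent.T9h21.DP.Spec4
import Pool.Agent.T9h21.DP.Fin2

/-!
# Assembly of the explicit theorem, bounded coordinates
-/

open Finset
open scoped ENNReal

set_option autoImplicit false

namespace Pool.Agent.T9h21.DP

open Pool.Agent.T9h48.SC Pool.Agent.T9h48.TSP

lemma Gt_anti {m : ℕ} (C : TropCircuit (Pr m)) (x : Node C) (σ τ : ℝ) (h : σ ≤ τ) :
    Gt C x τ ⊆ Gt C x σ := by
  classical
  intro χ hχ
  unfold Gt at hχ ⊢
  rw [mem_filter] at hχ ⊢
  exact ⟨mem_univ _, fun M c hM hc hk => hχ.2 M c hM hc (hk.trans h)⟩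

lemma Phi_univ {m : ℕ} (L R : ℕ) : Phi L R (univ : Finset (Cut m)) ≤ L := by
  unfold Phi
  have h : ∀ i ∈ range L, (avg fun X : Cfg m => ind univ X (arcL 0 (R ^ (i + 1)))) ≤ 1 := by
    intro i _
    unfold avg
    rw [div_le_one (by positivity)]
    have h1 : ∀ X ∈ (univ : Finset (Cfg m)), ind univ X (arcL 0 (R ^ (i + 1))) ≤ (1 : ℝ) := by
      intro X _
      unfold ind
      split_ifs <;> norm_num
    refine (sum_le_sum h1).trans ?_
    rw [sum_const, card_univ, Fintype.card_fun, Fintype.card_fin]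
    simp
  refine (sum_le_sum h).trans ?_
  rw [sum_const, card_range]
  simp

/-- the sandwiching sets of an optional gate -/
def BO {m : ℕ} {C : TropCircuit (Pr m)} {J : ℕ} (B : Ad C → Fin J → Finset (Cut m)) :
    Option (Ad C × Fin J) → Finset (Cut m)
  | none => ∅
  | some g => B g.1 g.2

theorem vFin (m : ℕ) (hp : V_piece m) (hr : V_root m) (hi : V_inst m) (hphi : S_phi2 m)
    (hcov : S_cov m) (htail : V_tail m) (hchain : V_chain m) : V_fin m := by
  classical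
  intro L R N C ρ hL hR hm hρ hN1 hN2 hC hLρ
  by_contra hcon
  rw [not_le] at hcon
  have hw : ∀ χ : Cut m, 0 ≤ Phi L R {χ} := fun χ => Phi_nonneg _ _ _
  have hwsum : ∀ D : Finset (Cut m), ∑ χ ∈ D, Phi L R {χ} = Phi L R D := hphi.1 L R
  have hwtot : ∑ χ : Cut m, Phi L R {χ} ≤ L := by
    rw [hwsum]
    exact Phi_univ L R
  choose B hB using fun g : Ad C =>
    hchain (fun χ => Phi L R {χ}) L hw hwtot (Gt C (Sum.inr (Sum.inr g.1)))
      (Gt_anti C (Sum.inr (Sum.inr g.1)))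
  set E : ℝ := ((m : ℝ) + 1) / (288 * (R ^ L) ^ 2 * L ^ 4) with hE
  let ι := (Ad C × Fin (6 * L + 4)) × Option (Ad C × Fin (6 * L + 4)) ×
    Option (Ad C × Fin (6 * L + 4))
  let DD : ι → Finset (Cut m) := fun i => B i.1.1 i.1.2 \ (BO B i.2.1 ∪ BO B i.2.2)
  let bad : ι → Finset (Cfg m) := fun i =>
    if 1 ≤ Phi L R (DD i) ∧ Phi L R (DD i) < 4 then
      univ.filter fun X => G L R (DD i) X ≤ ((m : ℝ) + 1) / 4 else ∅
  have hbad : ∀ i, ((bad i).card : ℝ) ≤ ((m : ℝ) + 1) ^ (m + 1) * Real.exp (-E) := by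
    intro i
    simp only [bad]
    split_ifs with h
    · exact htail L R (DD i) hL hR hm h.1 h.2
    · rw [card_empty, Nat.cast_zero]
      positivity
  have hcard : (Fintype.card ι : ℝ) ≤ (10 * L * ((C.numAdd : ℝ) + 1)) ^ 3 := by
    have h1 : Fintype.card (Ad C) = C.numAdd := by
      rw [Fintype.card_subtype]
      rfl
    have h2 : Fintype.card ι = (C.numAdd * (6 * L + 4)) *
        ((C.numAdd * (6 * L + 4) + 1) * (C.numAdd * (6 * L + 4) + 1)) := by
      simp only [ι, Fintype.card_prod, Fintype.card_option, Fintype.card_fin, h1]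
    have h3 : C.numAdd * (6 * L + 4) + 1 ≤ 10 * L * (C.numAdd + 1) := by nlinarith
    have h4 : C.numAdd * (6 * L + 4) ≤ 10 * L * (C.numAdd + 1) := by omega
    have h5 : Fintype.card ι ≤ (10 * L * (C.numAdd + 1)) ^ 3 := by
      rw [h2, pow_succ', sq]
      exact Nat.mul_le_mul h4 (Nat.mul_le_mul h3 h3)
    exact_mod_cast h5
  have hlt : ((univ.biUnion bad).card : ℝ) < ((m : ℝ) + 1) ^ (m + 1) := by
    calc ((univ.biUnion bad).card : ℝ) ≤ ((∑ i, (bad i).card : ℕ) : ℝ) := by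
          exact_mod_cast card_biUnion_le
      _ = ∑ i, ((bad i).card : ℝ) := by push_cast; rfl
      _ ≤ ∑ _i : ι, ((m : ℝ) + 1) ^ (m + 1) * Real.exp (-E) := sum_le_sum fun i _ => hbad i
      _ = (Fintype.card ι : ℝ) * (((m : ℝ) + 1) ^ (m + 1) * Real.exp (-E)) := by
          rw [sum_const, card_univ, nsmul_eq_mul]
      _ ≤ (10 * L * ((C.numAdd : ℝ) + 1)) ^ 3 * (((m : ℝ) + 1) ^ (m + 1) * Real.exp (-E)) :=
          mul_le_mul_of_nonneg_right hcard (by positivity)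
      _ < Real.exp E * (((m : ℝ) + 1) ^ (m + 1) * Real.exp (-E)) :=
          mul_lt_mul_of_pos_right hcon (by positivity)
      _ = ((m : ℝ) + 1) ^ (m + 1) := by
          rw [Real.exp_neg]
          have := (Real.exp_pos E).ne'
          field_simp
  have hne : ∃ X, X ∉ univ.biUnion bad := by
    by_contra hall
    push Not at hall
    have h1 : univ.biUnion bad = univ := eq_univ_iff_forall.2 hall
    rw [h1, card_univ, Fintype.card_fun, Fintype.card_fin] at hlt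
    push_cast at hlt
    exact lt_irrefl _ hlt
  obtain ⟨X, hX⟩ := hne
  have hXi : ∀ i : ι, 1 ≤ Phi L R (DD i) → Phi L R (DD i) < 4 →
      ((m : ℝ) + 1) / 4 < G L R (DD i) X := by
    intro i h1 h2
    by_contra hle
    apply hX
    rw [mem_biUnion]
    refine ⟨i, mem_univ _, ?_⟩
    simp only [bad]
    rw [if_pos ⟨h1, h2⟩, mem_filter]
    exact ⟨mem_univ _, not_lt.1 hle⟩
  obtain ⟨M, c, hM, hc, hcost, hkap⟩ := hi C ρ N hρ hN1 hC X
  have hL4 : 1 ≤ L ^ 4 := Nat.one_le_pow _ _ hL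
  have hR1 : 1 ≤ R := by omega
  have hRL : 1 ≤ R ^ L := Nat.one_le_pow _ _ hR1
  have hRm : R ^ L ≤ m := by nlinarith
  obtain ⟨hleaf, hbig⟩ := hphi.2 L R hL hR hm
  obtain ⟨Q, hQM, hQ, hQlen⟩ := hp C (fun χ => Phi L R {χ}) hw
    (fun e => by rw [hwsum]; exact hleaf e) C.out M c hM hc
  have h1 : (L : ℝ) - 1 < 6 * Q.length + 2 := by
    refine lt_of_le_of_lt (hbig.trans ?_) hQlen
    rw [← hwsum]
    refine sum_le_sum_of_subset_of_nonneg ?_ fun χ _ _ => hw χ
    intro χ hχ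
    obtain ⟨hu, hv⟩ := (mem_filter.1 hχ).2
    refine hr C ρ N N hC le_rfl (by nlinarith) _ ?_ χ hu hv
    linarith
  have hopt : ∀ h : Option (Ad C × ℝ), ∃ j, GtO C h ⊆ BO B j ∧
      ∑ χ ∈ BO B j \ GtO C h, Phi L R {χ} ≤ 1 / 3 := by
    rintro (_ | ⟨g, τ⟩)
    · refine ⟨none, ?_, ?_⟩
      · exact subset_refl _
      · change ∑ χ ∈ (∅ : Finset (Cut m)) \ ∅, Phi L R {χ} ≤ 1 / 3
        simp
    · obtain ⟨j, hj1, hj2⟩ := (hB g τ).2
      exact ⟨some (g, j), hj1, hj2⟩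
  have h2 : ∀ q ∈ Q, ((m : ℝ) + 1) / 56 ≤ (S q.2 (gap X) : ℝ) := by
    intro q hq
    obtain ⟨⟨⟨g, τ⟩, h, h', hq1⟩, hhit, hge, hlt'⟩ := hQ q hq
    obtain ⟨i, hi1, hi2⟩ := (hB g τ).1
    obtain ⟨j, hj1, hj2⟩ := hopt h
    obtain ⟨j', hj1', hj2'⟩ := hopt h'
    have hsub : DD ((g, i), j, j') ⊆ q.1 := by
      intro χ hχ
      simp only [DD, mem_sdiff, mem_union, not_or] at hχ
      rw [hq1, mem_sdiff, mem_union, not_or]
      exact ⟨hi1 hχ.1, fun h => hχ.2.1 (hj1 h), fun h => hχ.2.2 (hj1' h)⟩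
    have hdiff : q.1 \ DD ((g, i), j, j') ⊆
        (Gt C (Sum.inr (Sum.inr g.1)) τ \ B g i) ∪
          ((BO B j \ GtO C h) ∪ (BO B j' \ GtO C h')) := by
      intro χ hχ
      rw [mem_sdiff] at hχ
      obtain ⟨ha, hb⟩ := hχ
      rw [hq1, mem_sdiff, mem_union, not_or] at ha
      obtain ⟨ha1, ha2, ha3⟩ := ha
      simp only [DD, mem_sdiff, mem_union] at hb
      simp only [mem_union, mem_sdiff]
      by_cases e1 : χ ∈ B g i
      · by_cases e2 : χ ∈ BO B j
        · exact Or.inr (Or.inl ⟨e2, ha2⟩)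
        · by_cases e3 : χ ∈ BO B j'
          · exact Or.inr (Or.inr ⟨e3, ha3⟩)
          · exact absurd ⟨e1, by rintro (h | h); exacts [e2 h, e3 h]⟩ hb
      · exact Or.inl ⟨ha1, e1⟩
    have hun : ∀ s t : Finset (Cut m), ∑ χ ∈ s ∪ t, Phi L R {χ} ≤
        ∑ χ ∈ s, Phi L R {χ} + ∑ χ ∈ t, Phi L R {χ} := by
      intro s t
      rw [← sum_union_inter]
      have := sum_nonneg (s := s ∩ t) fun χ _ => hw χ
      linarith
    have hd1 : ∑ χ ∈ q.1 \ DD ((g, i), j, j'), Phi L R {χ} ≤ 1 := by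
      refine (sum_le_sum_of_subset_of_nonneg hdiff fun χ _ _ => hw χ).trans ?_
      refine (hun _ _).trans ?_
      have := hun (BO B j \ GtO C h) (BO B j' \ GtO C h')
      linarith
    have hd2 := sum_sdiff hsub (f := fun χ => Phi L R {χ})
    have hge1 : 1 ≤ Phi L R (DD ((g, i), j, j')) := by
      rw [← hwsum]
      linarith
    have hlt1 : Phi L R (DD ((g, i), j, j')) < 4 := by
      rw [← hwsum]
      have := sum_nonneg (s := q.1 \ DD ((g, i), j, j')) fun χ _ => hw χ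
      linarith
    have e1 := hXi _ hge1 hlt1
    have e2 := hcov L R (DD ((g, i), j, j')) X q.2 hR1 hRm fun χ hχ => hhit χ (hsub hχ)
    linarith
  have h3 := S_list_sum Q (gap X) _ h2
  have h4 : (S (Q.map Prod.snd).sum (gap X) : ℝ) ≤ S M (gap X) := by
    exact_mod_cast S_mono_le hQM (gap X)
  have h5 : (Q.length : ℝ) * (((m : ℝ) + 1) / 56) ≤ 3 * ρ * (m + 1) := h3.trans (h4.trans hcost)
  have hpos : (0 : ℝ) < (m : ℝ) + 1 := by positivity
  have h6 : (Q.length : ℝ) ≤ 168 * ρ := by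
    have e : (Q.length : ℝ) * ((m : ℝ) + 1) ≤ 168 * ρ * (m + 1) := by linarith
    exact le_of_mul_le_mul_right e hpos
  linarith

end Pool.Agent.T9h21.DP
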