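import Pool.Agent.T9h46.DP.VPiece
import Pool.Agent.T9h60.DP.Phi2
import Pool.Agent.T9h60.DP.Cov
import Pool.Agent.T9h41.DP.Bd
import Pool.Agent.T9h41.DP.VTail
import Pool.Agent.T9h22.DP.Mcd
import Pool.Agent.T9h6.DP.Sym
import Pool.Agent.T9h6.DP.Dis
import Pool.Agent.T9h8.DP.VChain
import Pool.Agent.T9h89.DP.VRoot
import Pool.Agent.T9h89.DP.VInst
import Pool.Agent.T9h51.DP.VMain
import Pool.Agent.T9h21.DP.Corr2
import Pool.Agent.T9h21.DP.VFin

/-!
# The lower bound for points with polynomially bounded coordinates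
-/

set_option autoImplicit false

namespace Pool.Agent.T9h21.DP

theorem vFin_all (m : ℕ) : V_fin m := by
  have hsym := Pool.Agent.T9h6.DP.sym m
  have hmom := mom2 m hsym (corr2 m hsym (Pool.Agent.T9h6.DP.dis m))
  exact vFin m (Pool.Agent.T9h46.DPV.vPiece m) (Pool.Agent.T9h89.DP.vRoot m)
    (Pool.Agent.T9h89.DP.vInst m) (Pool.Agent.T9h60.DP.phi2 m) (Pool.Agent.T9h60.DP.cov m)
    (Pool.Agent.T9h41.DP.vTail m hsym hmom
      (Pool.Agent.T9h41.DP.bd m) (Pool.Agent.T9h22.DP.mcd m)) (Pool.Agent.T9h8.DP.vChain m)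

/-- **The lower bound**, for circuits which are correct for the points of `{0, …, n ^ 4}²` -/
theorem lowerB : V_main := Pool.Agent.T9h51.DP.vMain vFin_all

end Pool.Agent.T9h21.DP
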