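import Pool.Agent.T9h48.TSP.Main

/-!
# No constant factor for pure dynamic programs (planar TSP): specification

`n = m + 1` vertices are put at random in `m + 1` cells of a line (`X : Cfg m`, uniform and
independent). For a set `D` of cuts, `Phi L R D` is the sum over the scales `s = R, R ^ 2, …, R ^ L`
of the probability that the content of an interval of `s` cells is in `D`.
For a node `x` of a circuit `Gd C x` is the set of the cuts that every monomial produced at `x`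
crosses. A parse tree is split in pieces (`S_piece`); in each piece the cuts of a set `D` with
`1 ≤ Phi D < 2` are crossed, and this is expensive for almost all `X` (`S_cov`, `S_tail`).
-/

open Finset
open scoped ENNReal

set_option autoImplicit false

namespace Pool.Agent.T9h21.DP

open Pool.Agent.T9h48.SC Pool.Agent.T9h48.TSP

/-- placements of the `m + 1` vertices in the `m + 1` cells -/
abbrev Cfg (m : ℕ) := Fin (m + 1) → Fin (m + 1)

/-- cuts of the vertex set -/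
abbrev Cut (m : ℕ) := Fin (m + 1) → Bool

/-- pairs of vertices -/
abbrev Pr (m : ℕ) := Fin (m + 1) × Fin (m + 1)

/-- the operands of a circuit -/
abbrev Node {m : ℕ} (C : TropCircuit (Pr m)) := Pr m ⊕ ℝ≥0∞ ⊕ Fin C.size

/-- mean value over all placements -/
noncomputable def avg {m : ℕ} (F : Cfg m → ℝ) : ℝ := (∑ X, F X) / ((m : ℝ) + 1) ^ (m + 1)

/-- the content of a set of cells -/
def con {m : ℕ} (X : Cfg m) (I : Finset (Fin (m + 1))) : Cut m := fun v => decide (X v ∈ I)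

/-- the cyclic interval of `s` cells which begins with `l` -/
def arcL {m : ℕ} (l : Fin (m + 1)) (s : ℕ) : Finset (Fin (m + 1)) :=
  univ.filter fun t => ((t - l : Fin (m + 1)) : ℕ) < s

/-- the cyclic interval of the `s` cells before `r` -/
def arcR {m : ℕ} (r : Fin (m + 1)) (s : ℕ) : Finset (Fin (m + 1)) :=
  univ.filter fun t => ((r - 1 - t : Fin (m + 1)) : ℕ) < s

/-- indicator: the content of `I` is in `D` -/
noncomputable def ind {m : ℕ} (D : Finset (Cut m)) (X : Cfg m) (I : Finset (Fin (m + 1))) : ℝ :=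
  if con X I ∈ D then 1 else 0

/-- the potential of a set of cuts -/
noncomputable def Phi {m : ℕ} (L R : ℕ) (D : Finset (Cut m)) : ℝ :=
  ∑ i ∈ range L, avg fun X => ind D X (arcL 0 (R ^ (i + 1)))

/-- number of scales at which the interval beginning with `l` is in `D` -/
noncomputable def Nl {m : ℕ} (L R : ℕ) (D : Finset (Cut m)) (X : Cfg m) (l : Fin (m + 1)) : ℝ :=
  ∑ i ∈ range L, ind D X (arcL l (R ^ (i + 1)))

/-- number of scales at which the interval ending before `r` is in `D` -/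
noncomputable def Nr {m : ℕ} (L R : ℕ) (D : Finset (Cut m)) (X : Cfg m) (r : Fin (m + 1)) : ℝ :=
  ∑ i ∈ range L, ind D X (arcR r (R ^ (i + 1)))

/-- the lower bound for the cost -/
noncomputable def G {m : ℕ} (L R : ℕ) (D : Finset (Cut m)) (X : Cfg m) : ℝ :=
  ∑ l, Nl L R D X l - (1 / 28) * ∑ l, (Nl L R D X l ^ 2 + Nr L R D X l ^ 2)

/-- distance of the cells of a pair -/
def gap {m : ℕ} (X : Cfg m) (e : Pr m) : ℕ :=
  ((X e.1 : ℕ) - (X e.2 : ℕ)) + ((X e.2 : ℕ) - (X e.1 : ℕ))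

/-- some pair of `y` crosses the cut `χ` -/
def Hits {m : ℕ} (y : Multiset (Pr m)) (χ : Cut m) : Prop := ∃ e ∈ y, χ e.1 ≠ χ e.2

open Classical in
/-- the cuts that all monomials produced at the node `x` cross -/
noncomputable def Gd {m : ℕ} (C : TropCircuit (Pr m)) (x : Node C) : Finset (Cut m) :=
  univ.filter fun χ => ∀ M c, PC C x M c → c ≠ ⊤ → Hits M χ

/-- addition gates -/
abbrev Ad {m : ℕ} (C : TropCircuit (Pr m)) := {i : Fin C.size // C.isAdd i = true}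

/-- `Gd` of an addition gate, `∅` for `none` -/
noncomputable def GdO {m : ℕ} (C : TropCircuit (Pr m)) (g : Option (Ad C)) : Finset (Cut m) :=
  g.elim ∅ fun g => Gd C (Sum.inr (Sum.inr g.1))

/-- the family of sets of cuts of the pieces -/
def Fam {m : ℕ} (C : TropCircuit (Pr m)) (D : Finset (Cut m)) : Prop :=
  ∃ (g : Ad C) (h h' : Option (Ad C)),
    D = Gd C (Sum.inr (Sum.inr g.1)) \ (GdO C h ∪ GdO C h')

/-! ### Circuits and instances -/

/-- PIECES. Proof: by induction on `PC C x M c` one finds an open piece `(H₀, y₀)` at `x` and closed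
pieces `(g_k, H_k, y_k)` (`g_k` an addition gate, `H` a list of addition gates) with
`M = y₀ + ∑ y_k`; `∀ χ, (∀ h ∈ H₀, χ ∉ Gd h) → ¬ Hits y₀ χ → χ ∉ Gd x`;
`∀ χ ∈ Gd g_k, (∀ h ∈ H_k, χ ∉ Gd h) → Hits y_k χ`; `1 ≤ w (Gd g_k ∖ ⋃ Gd h) < 2`;
`w (Gd x ∖ ⋃_{h ∈ H₀} Gd h) < 1`; `⋃_{h ∈ H₀} Gd h ⊆ ⋃_k (Gd g_k ∖ ⋃_{h ∈ H_k} Gd h)`;
`|H₀| + ∑ |H_k| = number of closed pieces P`.
Addition gate: `Gd gate ⊆ Gd left ∪ Gd right`; merge the open pieces (lists appended, sums added); if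
the new residual weight is `≥ 1`, close the piece at the gate, and continue with `([gate], 0)`.
Minimum gate: `Gd gate ⊆ Gd child`. Variable: `([], {e})`, constant `c ≠ ⊤`: `([], 0)`, `Gd = ∅`.
At the end `w (Gd x) < 1 + 2 P`, and at most `P / 3` closed pieces have `|H_k| ≥ 3`;
the others are the list `Q`. -/
def S_piece (m : ℕ) : Prop :=
  ∀ (C : TropCircuit (Pr m)) (w : Cut m → ℝ), (∀ χ, 0 ≤ w χ) →
    (∀ e : Pr m, ∑ χ ∈ univ.filter (fun χ : Cut m => χ e.1 ≠ χ e.2), w χ < 1) →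
    ∀ (x : Node C) (M : Multiset (Pr m)) (c : ℝ≥0∞), PC C x M c → c ≠ ⊤ →
      ∃ Q : List (Finset (Cut m) × Multiset (Pr m)), (Q.map Prod.snd).sum ≤ M ∧
        (∀ q ∈ Q, Fam C q.1 ∧ (∀ χ ∈ q.1, Hits q.2 χ) ∧ 1 ≤ ∑ χ ∈ q.1, w χ ∧
          ∑ χ ∈ q.1, w χ < 2) ∧
        ∑ χ ∈ Gd C x, w χ < 3 * Q.length + 1

/-- all nonconstant cuts are crossed at the output (`cut_lemma` of helper48, `N` large) -/
def S_root (m : ℕ) : Prop :=
  ∀ (C : TropCircuit (Pr m)) (ρ : ℝ), (∀ N, Solves C N ρ) → ∀ χ : Cut m,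
    (∃ u, χ u = true) → (∃ u, χ u = false) → χ ∈ Gd C C.out

/-- the instance `p v = ((m + 1) * X v, v)`; a tour in the order of the cells (`Tuple.sort`) has
length at most `3 (m + 1) ^ 2`; then `attainC` (helper48) and `eucl ≥ (m + 1) * gap` -/
def S_inst (m : ℕ) : Prop :=
  ∀ (C : TropCircuit (Pr m)) (ρ : ℝ), 0 ≤ ρ → (∀ N, Solves C N ρ) → ∀ X : Cfg m,
    ∃ M c, PC C C.out M c ∧ c ≠ ⊤ ∧ (S M (gap X) : ℝ) ≤ 3 * ρ * (m + 1)

/-- basic facts on the potential: additivity (`ind` is additive in `D`), small for the cuts crossed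
by one pair (`≤ ∑ 2 s / (m + 1)`), almost `L` for the nonconstant cuts
(`(1 - s/n)^n + (s/n)^n ≤ 1 / L` for each scale) -/
def S_phi (m : ℕ) : Prop :=
  (∀ (L R : ℕ) (D : Finset (Cut m)), ∑ χ ∈ D, Phi L R {χ} = Phi L R D) ∧
  ∀ L R : ℕ, 1 ≤ L → 2 * L ^ 4 ≤ R → 4 * L ^ 4 * (R ^ L) ^ 2 ≤ m + 1 →
    (∀ e : Pr m, Phi L R (univ.filter (fun χ : Cut m => χ e.1 ≠ χ e.2)) < 1) ∧
    (L : ℝ) - 1 ≤ Phi L R (univ.filter fun χ : Cut m => (∃ u, χ u = true) ∧ ∃ u, χ u = false)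

/-! ### Cost of a piece -/

/-- COVER. `K` = the cells `t` such that some `e ∈ y` has exactly one of `X e.1 < t`, `X e.2 < t`;
`|K| ≤ S y (gap X)`. If the content of `arcL l s` (`s ≤ m`) is in `D`, then `l ∈ K` or `l + s ∈ K`.
So `∑ Nl ≤ ∑_{l ∈ K} Nl l + ∑_{r ∈ K} Nr r ≤ 14 |K| + (1 / 28) ∑ (Nl ^ 2 + Nr ^ 2)` by
`z ≤ 7 + z ^ 2 / 28`. (`arcL l s = arcR (l + s) s`.) -/
def S_cov (m : ℕ) : Prop :=
  ∀ (L R : ℕ) (D : Finset (Cut m)) (X : Cfg m) (y : Multiset (Pr m)), 1 ≤ R → R ^ L ≤ m →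
    (∀ χ ∈ D, Hits y χ) → G L R D X ≤ 14 * (S y (gap X) : ℝ)

/-- bounded differences (at most `2 R ^ L` of the `Nl l` change, each by at most `L`, the same for
`Nr`) -/
def S_bd (m : ℕ) : Prop :=
  ∀ (L R : ℕ) (D : Finset (Cut m)) (X : Cfg m) (v a : Fin (m + 1)), 1 ≤ L → 1 ≤ R → R ^ L ≤ m →
    |G L R D (Function.update X v a) - G L R D X| ≤ 3 * R ^ L * L ^ 2

/-- McDiarmid's inequality -/
def S_mcd (m : ℕ) : Prop :=
  ∀ (F : Cfg m → ℝ) (B t : ℝ), 0 < B → 0 < t →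
    (∀ (X : Cfg m) (v a : Fin (m + 1)), |F (Function.update X v a) - F X| ≤ B) →
    ((univ.filter fun X => F X ≤ avg F - t).card : ℝ) ≤
      ((m : ℝ) + 1) ^ (m + 1) * Real.exp (-(t ^ 2 / (2 * (m + 1) * B ^ 2)))

/-- symmetry: replace `X` by `π ∘ X`, `π` a permutation of the cells with `π I = I'`, `π J = J'` -/
def S_sym (m : ℕ) : Prop :=
  ∀ (D : Finset (Cut m)) (I J I' J' : Finset (Fin (m + 1))), I ⊆ J → I' ⊆ J' →
    I.card = I'.card → J.card = J'.card →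
    (avg fun X => ind D X I * ind D X J) = avg fun X => ind D X I' * ind D X J'

/-- contents of disjoint sets are almost independent. Coupling: for `(X, X')` swap `X v` and `X' v`
for the `v` with `X v ∈ J` or `X' v ∈ J`, but `X v ∉ I` and `X' v ∉ I`; an involution. The
contents of `I`, `J` under the new `X` are those of `I` under `X` and `J` under `X'` unless for some
`v` one of `X v`, `X' v` is in `I` and the other in `J` (probability `≤ 2 |I| |J| / (m + 1)`). -/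
def S_dis (m : ℕ) : Prop :=
  ∀ (D : Finset (Cut m)) (I J : Finset (Fin (m + 1))), Disjoint I J →
    (avg fun X => ind D X I * ind D X J) ≤
      (avg fun X => ind D X I) * (avg fun X => ind D X J) + 2 * I.card * J.card / (m + 1)

/-- contents of nested sets: choose disjoint `I = I_1, …, I_k ⊆ J` of the same size; by symmetry the
mean is `avg (Z * ind J)`, `Z = (1/k) ∑ ind I_a`; Cauchy-Schwarz, and the variance of `Z` is at most
`1 / k + 2 |I| ^ 2 / (m + 1)` by `S_dis` -/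
def S_corr (m : ℕ) : Prop :=
  ∀ (D : Finset (Cut m)) (I J : Finset (Fin (m + 1))) (k : ℕ), I ⊆ J → 1 ≤ k →
    k * I.card ≤ J.card →
    (avg fun X => ind D X I * ind D X J) ≤
      (avg fun X => ind D X I) * (avg fun X => ind D X J) +
        √(1 / k + 2 * I.card ^ 2 / (m + 1))

/-- second moments: `E N ^ 2 ≤ θ + θ ^ 2 + 1`, `θ = Phi D < 2` -/
def S_mom (m : ℕ) : Prop :=
  ∀ (L R : ℕ) (D : Finset (Cut m)) (l : Fin (m + 1)), 1 ≤ L → 2 * L ^ 4 ≤ R →
    4 * L ^ 4 * (R ^ L) ^ 2 ≤ m + 1 → Phi L R D < 2 →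
    (avg fun X => Nl L R D X l ^ 2) ≤ 7 ∧ (avg fun X => Nr L R D X l ^ 2) ≤ 7

/-- the mean of `G` -/
def S_EG (m : ℕ) : Prop :=
  ∀ (L R : ℕ) (D : Finset (Cut m)), 1 ≤ L → 2 * L ^ 4 ≤ R →
    4 * L ^ 4 * (R ^ L) ^ 2 ≤ m + 1 → 1 ≤ Phi L R D → Phi L R D < 2 →
    ((m : ℝ) + 1) / 2 ≤ avg (G L R D)

/-- the tail of `G` -/
def S_tail (m : ℕ) : Prop :=
  ∀ (L R : ℕ) (D : Finset (Cut m)), 1 ≤ L → 2 * L ^ 4 ≤ R →
    4 * L ^ 4 * (R ^ L) ^ 2 ≤ m + 1 → 1 ≤ Phi L R D → Phi L R D < 2 →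
    ((univ.filter fun X => G L R D X ≤ ((m : ℝ) + 1) / 4).card : ℝ) ≤
      ((m : ℝ) + 1) ^ (m + 1) * Real.exp (-(((m : ℝ) + 1) / (288 * (R ^ L) ^ 2 * L ^ 4)))

/-! ### The theorem -/

/-- explicit form. Union bound over `Fam C` (at most `T (T + 1) ^ 2` sets, `T = C.numAdd`); for the
other `X` each of the more than `(L - 2) / 3` pieces costs at least `(m + 1) / 56`, together at most
`3 ρ (m + 1)`. -/
def S_fin (m : ℕ) : Prop :=
  ∀ (L R : ℕ) (C : TropCircuit (Pr m)) (ρ : ℝ), 1 ≤ L → 2 * L ^ 4 ≤ R →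
    4 * L ^ 4 * (R ^ L) ^ 2 ≤ m + 1 → 0 ≤ ρ → (∀ N, Solves C N ρ) → 504 * ρ + 2 ≤ L →
    Real.exp (((m : ℝ) + 1) / (288 * (R ^ L) ^ 2 * L ^ 4)) ≤ ((C.numAdd : ℝ) + 1) ^ 3

/-- every constant factor -/
def S_const : Prop :=
  ∀ ρ : ℝ, ∃ c : ℝ, 0 < c ∧ ∃ n₀ : ℕ, ∀ n : ℕ, n₀ ≤ n → ∀ C : TropCircuit (Fin n × Fin n),
    (∀ N, Solves C N ρ) → Real.exp (c * n) ≤ C.numAdd

/-- circuits of size `exp √n` (take `R = 2 L ^ 4`, `L = ⌊log n / (40 log log n)⌋`) -/
def S_sqrt : Prop :=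
  ∃ c : ℝ, 0 < c ∧ ∃ n₀ : ℕ, ∀ n : ℕ, n₀ ≤ n → ∀ (C : TropCircuit (Fin n × Fin n)) (ρ : ℝ),
    (∀ N, Solves C N ρ) → (C.numAdd : ℝ) ≤ Real.exp √n →
    c * Real.log n / Real.log (Real.log n) ≤ ρ

end Pool.Agent.T9h21.DP
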