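import Pool.Agent.T9h21.DP.Spec

/-!
# Sharper pieces: scales `4, 4 ^ 2, …, 4 ^ L` instead of powers of `2 L ^ 4`

They replace `S_corr`, `S_mom`, `S_EG`, `S_tail`, `S_phi`, `S_fin`, `S_const`, `S_sqrt`.
-/

open Finset
open scoped ENNReal

set_option autoImplicit false

namespace Pool.Agent.T9h21.DP

open Pool.Agent.T9h48.SC Pool.Agent.T9h48.TSP

/-- as `S_corr`, but in the Cauchy-Schwarz step keep `E W ^ 2 = a_J` (`W = ind J`) and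
`Var Z ≤ a_I / k + 2 |I| ^ 2 / (m + 1)`; then `√(x + y) ≤ √x + √y` -/
def S_corr2 (m : ℕ) : Prop :=
  ∀ (D : Finset (Cut m)) (I J : Finset (Fin (m + 1))) (k : ℕ), I ⊆ J → 1 ≤ k →
    k * I.card ≤ J.card →
    (avg fun X => ind D X I * ind D X J) ≤
      (avg fun X => ind D X I) * (avg fun X => ind D X J) +
        √((avg fun X => ind D X I) * (avg fun X => ind D X J) / k) +
        √(2 * I.card ^ 2 / (m + 1))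

/-- second moments. With `θ_i` the mean of `ind` at scale `i`: the pairs `i = j` give `∑ θ_i`, the
pairs `i ≠ j` at most `θ_i θ_j + √(θ_i θ_j) 2 ^ (-|i - j|) + 1 / L ^ 2` (`R ≥ 4`, `k = R ^ |i - j|`), and
`√(θ_i θ_j) ≤ (θ_i + θ_j) / 2`, so that these terms sum up to at most `2 θ` -/
def S_mom2 (m : ℕ) : Prop :=
  ∀ (L R : ℕ) (D : Finset (Cut m)) (l : Fin (m + 1)), 1 ≤ L → 4 ≤ R →
    4 * L ^ 4 * (R ^ L) ^ 2 ≤ m + 1 →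
    (avg fun X => Nl L R D X l ^ 2) ≤ 3 * Phi L R D + Phi L R D ^ 2 + 1 ∧
    (avg fun X => Nr L R D X l ^ 2) ≤ 3 * Phi L R D + Phi L R D ^ 2 + 1

/-- the mean of `G` (`θ - (3 θ + θ ^ 2 + 1) / 14 ≥ 9 / 14` for `1 ≤ θ ≤ 2`) -/
def S_EG2 (m : ℕ) : Prop :=
  ∀ (L R : ℕ) (D : Finset (Cut m)), 1 ≤ L → 4 ≤ R →
    4 * L ^ 4 * (R ^ L) ^ 2 ≤ m + 1 → 1 ≤ Phi L R D → Phi L R D < 2 →
    ((m : ℝ) + 1) / 2 ≤ avg (G L R D)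

/-- the tail of `G` -/
def S_tail2 (m : ℕ) : Prop :=
  ∀ (L R : ℕ) (D : Finset (Cut m)), 1 ≤ L → 4 ≤ R →
    4 * L ^ 4 * (R ^ L) ^ 2 ≤ m + 1 → 1 ≤ Phi L R D → Phi L R D < 2 →
    ((univ.filter fun X => G L R D X ≤ ((m : ℝ) + 1) / 4).card : ℝ) ≤
      ((m : ℝ) + 1) ^ (m + 1) * Real.exp (-(((m : ℝ) + 1) / (288 * (R ^ L) ^ 2 * L ^ 4)))

/-- basic facts on the potential; for the last one
`∑ (1 - s/n)^n ≤ ∑ 1 / (1 + s) ≤ ∑ 4 ^ (-i-1) ≤ 1 / 3` and `∑ (s/n)^n ≤ ∑ s / n ≤ 1 / 16` -/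
def S_phi2 (m : ℕ) : Prop :=
  (∀ (L R : ℕ) (D : Finset (Cut m)), ∑ χ ∈ D, Phi L R {χ} = Phi L R D) ∧
  ∀ L R : ℕ, 1 ≤ L → 4 ≤ R → 4 * L ^ 4 * (R ^ L) ^ 2 ≤ m + 1 →
    (∀ e : Pr m, Phi L R (univ.filter (fun χ : Cut m => χ e.1 ≠ χ e.2)) < 1) ∧
    (L : ℝ) - 1 ≤ Phi L R (univ.filter fun χ : Cut m => (∃ u, χ u = true) ∧ ∃ u, χ u = false)

/-- explicit form -/
def S_fin2 (m : ℕ) : Prop :=
  ∀ (L R : ℕ) (C : TropCircuit (Pr m)) (ρ : ℝ), 1 ≤ L → 4 ≤ R →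
    4 * L ^ 4 * (R ^ L) ^ 2 ≤ m + 1 → 0 ≤ ρ → (∀ N, Solves C N ρ) → 504 * ρ + 2 ≤ L →
    Real.exp (((m : ℝ) + 1) / (288 * (R ^ L) ^ 2 * L ^ 4)) ≤ ((C.numAdd : ℝ) + 1) ^ 3

/-- THE THEOREM: from `S_fin2` with `R = 4`, `L = ⌈504 ρ⌉ + 2 ≤ 507 ρ`; `K = exp 1500` is enough:
`4 L ^ 4 16 ^ L ≤ K ^ ρ ≤ n`, `1728 L ^ 4 16 ^ L ≤ K ^ ρ`, and with `x = n / K ^ ρ ≥ 1`
`(T + 1) ^ 3 ≥ exp (6 x)` gives `T ≥ exp (2 x) - 1 ≥ exp x` -/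
def S_main : Prop :=
  ∃ K : ℝ, 1 < K ∧ ∀ ρ : ℝ, 1 ≤ ρ → ∀ n : ℕ, K ^ ρ ≤ n → ∀ C : TropCircuit (Fin n × Fin n),
    (∀ N, Solves C N ρ) → Real.exp (n / K ^ ρ) ≤ C.numAdd

end Pool.Agent.T9h21.DP
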