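import Pool.Agent.T9h48.TSP.Main

/-!
# The matching upper bound: pure dynamic programs with few gates and factor `O(log n)`

Specification. `Fm V` are `(min, +)` formulas. `Tour p A r`: there is a closed tour of length at most
`r` through the points `p v`, `v ∈ A`. `Apx A ρ F`: the formula `F` approximates the shortest tour
through `A` within the factor `ρ`, for all `p`.
-/

open Finset
open scoped ENNReal

set_option autoImplicit false

namespace Pool.Agent.T9h21.DP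

open Pool.Agent.T9h48.SC Pool.Agent.T9h48.TSP

/-- `(min, +)` formulas -/
inductive Fm (V : Type) : Type
  | var (v : V) : Fm V
  | const (c : ℝ≥0∞) : Fm V
  | add (F F' : Fm V) : Fm V
  | min (F F' : Fm V) : Fm V

/-- the value of a formula -/
noncomputable def Fm.eval {V : Type} (w : V → ℝ≥0∞) : Fm V → ℝ≥0∞
  | .var v => w v
  | .const c => c
  | .add F F' => F.eval w + F'.eval w
  | .min F F' => Min.min (F.eval w) (F'.eval w)

/-- the number of additions -/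
def Fm.adds {V : Type} : Fm V → ℕ
  | .var _ => 0
  | .const _ => 0
  | .add F F' => F.adds + F'.adds + 1
  | .min F F' => F.adds + F'.adds

/-- the cyclic length of a list of points -/
noncomputable def clen {n : ℕ} (p : Fin n → ℤ × ℤ) (l : List (Fin n)) : ℝ :=
  (List.zipWith (fun u v => eucl (p u) (p v)) l (l.rotate 1)).sum

/-- there is a closed tour through `A` of length at most `r` -/
def Tour {n : ℕ} (p : Fin n → ℤ × ℤ) (A : Finset (Fin n)) (r : ℝ) : Prop :=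
  ∃ l : List (Fin n), l.Nodup ∧ l.toFinset = A ∧ clen p l ≤ r

/-- the formula `F` approximates the shortest tour through `A` within the factor `ρ` -/
def Apx {n : ℕ} (A : Finset (Fin n)) (ρ : ℝ) (F : Fm (Fin n × Fin n)) : Prop :=
  ∀ p : Fin n → ℤ × ℤ, (∃ r, 0 ≤ r ∧ Tour p A r ∧ ENNReal.ofReal r ≤ F.eval (dists p)) ∧
    ∀ r, 0 ≤ r → Tour p A r → F.eval (dists p) ≤ ENNReal.ofReal (ρ * r)

/-- (u1) a formula is a circuit with the same number of additions -/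
def U_circ : Prop :=
  ∀ (V : Type) (F : Fm V), ∃ C : TropCircuit V, C.numAdd = F.adds ∧
    ∀ w : V → ℝ≥0∞, ∃ val, C.IsRun w val ∧ TropCircuit.nodeVal w val C.out = F.eval w

/-- (u2) sums and minima of finite families of formulas -/
def U_fam : Prop :=
  ∀ (V ι : Type) (s : Finset ι) (f : ι → Fm V),
    (∃ F : Fm V, F.adds ≤ ∑ i ∈ s, (f i).adds ∧ ∀ w, F.eval w = s.inf fun i => (f i).eval w) ∧
    ∃ F : Fm V, F.adds ≤ ∑ i ∈ s, (f i).adds + s.card ∧ ∀ w, F.eval w = ∑ i ∈ s, (f i).eval w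

/-- (u3) tours: insertion of a point, deletion of points, comparison with `tsp` -/
def U_tour : Prop :=
  (∀ (n : ℕ) (p : Fin n → ℤ × ℤ) (A : Finset (Fin n)) (r : ℝ) (u v : Fin n), u ∈ A → v ∉ A →
    Tour p A r → Tour p (insert v A) (r + 2 * eucl (p v) (p u))) ∧
  (∀ (n : ℕ) (p : Fin n → ℤ × ℤ) (A B : Finset (Fin n)) (r : ℝ), B ⊆ A → Tour p A r → Tour p B r) ∧
  (∀ (n : ℕ) (p : Fin n → ℤ × ℤ), 1 ≤ n → Tour p univ (tsp p)) ∧
  (∀ (n : ℕ) (p : Fin n → ℤ × ℤ) (r : ℝ), 1 ≤ n → Tour p univ r → tsp p ≤ r)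

/-- (u4) HASHING. Take a prime `q`, `n ≤ q ≤ 2 n`, `ι = (ZMod q) ^ 4`, `Q = {x | x.val < q / 8 + 1}` and
`B (a, b, a', b') = {v | a v + b ∈ Q or a' v + b' ∈ Q}`. Pairwise independence and Chebyshev: the
probability that `a v + b ∉ Q` for all `v ∈ J` is at most `7 / |J|`. -/
def U_hash : Prop :=
  ∀ n : ℕ, 100 ≤ n → ∃ (k : ℕ) (B : Fin k → Finset (Fin n)), 1 ≤ k ∧ k ≤ (2 * n) ^ 4 ∧
    (∀ v, 3 * ((univ.filter fun i => v ∈ B i).card : ℝ) ≤ k) ∧
    ∀ J : Finset (Fin n), J.Nonempty →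
      ((univ.filter fun i => Disjoint (B i) J).card : ℝ) ≤ 49 / (J.card : ℝ) ^ 2 * k

/-- (u5) OPTIONS. If `|A| ≤ 200` take only `B = {a₀}` (the sum is at most `|A| r / 2`). Otherwise
`ℬ` = the sets `(B i ∩ A) ∪ {a₀}` with `4 |B| ≤ 3 |A|` (at least `1 / 3` of the `i` by Markov). For a
tour `v_0, v_1, …` of `A` the distance of `v_j` to `B` is at most the sum of the sides
`(v_(j+t), v_(j+t+1))` over the `t` with `v_j, …, v_(j+t) ∉ B`; the mean over `i` of the total is at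
most `∑_t min 1 (49 / (t+1) ^ 2) ≤ 14` times the length of the tour. -/
def U_opt : Prop :=
  ∀ (n : ℕ) (A : Finset (Fin n)), 2 ≤ A.card → ∃ ℬ : Finset (Finset (Fin n)),
    ℬ.Nonempty ∧ ℬ.card ≤ (2 * n) ^ 4 ∧ (∀ B ∈ ℬ, B ⊆ A ∧ B.Nonempty ∧ 4 * B.card ≤ 3 * A.card) ∧
    ∀ (p : Fin n → ℤ × ℤ) (r : ℝ), 0 ≤ r → Tour p A r → ∃ B ∈ ℬ,
      ∃ g : Fin n → Fin n, (∀ v, g v ∈ B) ∧ ∑ v ∈ A \ B, eucl (p v) (p (g v)) ≤ 100 * r

/-- (u6) STEP. `F = min over B ∈ ℬ of 2 ∑_{v ∈ A \ B} min_{u ∈ B} x_(v, u) + F_B` -/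
def U_step : Prop :=
  ∀ (n : ℕ) (A : Finset (Fin n)) (ρ : ℝ) (s : ℕ), 2 ≤ A.card → 0 ≤ ρ →
    (∀ B ⊆ A, B.Nonempty → 4 * B.card ≤ 3 * A.card → ∃ F, Apx B ρ F ∧ F.adds ≤ s) →
    ∃ F, Apx A (ρ + 200) F ∧ F.adds ≤ (2 * n) ^ 4 * (2 * n + 2 + s)

/-- (u7) exact formulas of Gurevich and Shelah: `HP A u v` (shortest path from `u` to `v` through `A`)
is the minimum over the halves `A = A₁ ⊔ A₂` and `w ∈ A₁`, `w' ∈ A₂` of
`HP A₁ u w + x_(w, w') + HP A₂ w' v` -/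
def U_exact : Prop :=
  ∃ K : ℝ, 0 < K ∧ ∀ (n : ℕ) (A : Finset (Fin n)), 2 ≤ n → A.Nonempty → ∃ F, Apx A 1 F ∧
    (F.adds : ℝ) ≤ Real.exp (K * (A.card + Real.log n ^ 2))

/-- UPPER BOUND: `j` steps and then exact formulas for the sets with at most `(3/4) ^ j n` elements.
Claim for `i ≤ j`: every nonempty `A` with `|A| ≤ (3/4) ^ (j - i) n` has a formula with `Apx A (200 i + 1)`
and at most `s_i` additions, `s_(i+1) = (2 n) ^ 4 (2 n + 2 + s_i)`; then `U_circ` and `U_tour`. -/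
def U_main : Prop :=
  ∃ K : ℝ, 0 < K ∧ ∀ n j : ℕ, 2 ≤ n → (j : ℝ) ≤ 5 * Real.log n + 1 →
    ∃ C : TropCircuit (Fin n × Fin n), (∀ N, Solves C N (200 * j + 1)) ∧
      (C.numAdd : ℝ) ≤ Real.exp (K * ((3 / 4) ^ j * n + Real.log n ^ 2))

end Pool.Agent.T9h21.DP
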