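import Pool.Agent.T9h21.DP.Spec2

/-!
# Polynomially bounded coordinates: specification

The lower bound for circuits which are only correct for the points of `{0, …, n ^ 4}²`. Instead of
`Gd C x` one uses `Gt C x τ`: the cuts that are crossed by all monomials of weight at most `τ`
produced at `x`. In a parse tree `τ` is the weight of the actual monomial at `x`. For each gate the
chain of the sets `Gt C x τ`, `τ ∈ ℝ`, is replaced by few members (`V_chain`).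
-/

open Finset
open scoped ENNReal

set_option autoImplicit false

namespace Pool.Agent.T9h21.DP

open Pool.Agent.T9h48.SC Pool.Agent.T9h48.TSP

/-- the weight of a monomial with its constant -/
noncomputable def kap {m : ℕ} (M : Multiset (Pr m)) (c : ℝ≥0∞) : ℝ :=
  (S M nl : ℝ) * (m + 1) + c.toReal

open Classical in
/-- the cuts that all monomials of weight at most `τ` produced at the node `x` cross -/
noncomputable def Gt {m : ℕ} (C : TropCircuit (Pr m)) (x : Node C) (τ : ℝ) : Finset (Cut m) :=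
  univ.filter fun χ => ∀ M c, PC C x M c → c ≠ ⊤ → kap M c ≤ τ → Hits M χ

/-- `Gt` of an addition gate, `∅` for `none` -/
noncomputable def GtO {m : ℕ} (C : TropCircuit (Pr m)) (g : Option (Ad C × ℝ)) : Finset (Cut m) :=
  g.elim ∅ fun g => Gt C (Sum.inr (Sum.inr g.1.1)) g.2

/-- the family of sets of cuts of the pieces -/
def FamT {m : ℕ} (C : TropCircuit (Pr m)) (D : Finset (Cut m)) : Prop :=
  ∃ (g : Ad C × ℝ) (h h' : Option (Ad C × ℝ)),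
    D = Gt C (Sum.inr (Sum.inr g.1.1)) g.2 \ (GtO C h ∪ GtO C h')

/-- (v1) as `S_piece` (proof of helper46), with `Gt C x (kap M c)` instead of `Gd C x`, holes and
closed pieces in `Ad C × ℝ` (gate and weight of the actual monomial there), threshold `2` instead
of `1`. `kap (M + N) (c + d) = kap M c + kap N d` gives
`Gt gate (kap (M + N) (c + d)) ⊆ Gt left (kap M c) ∪ Gt right (kap N d)`. -/
def V_piece (m : ℕ) : Prop :=
  ∀ (C : TropCircuit (Pr m)) (w : Cut m → ℝ), (∀ χ, 0 ≤ w χ) →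
    (∀ e : Pr m, ∑ χ ∈ univ.filter (fun χ : Cut m => χ e.1 ≠ χ e.2), w χ < 1) →
    ∀ (x : Node C) (M : Multiset (Pr m)) (c : ℝ≥0∞), PC C x M c → c ≠ ⊤ →
      ∃ Q : List (Finset (Cut m) × Multiset (Pr m)), (Q.map Prod.snd).sum ≤ M ∧
        (∀ q ∈ Q, FamT C q.1 ∧ (∀ χ ∈ q.1, Hits q.2 χ) ∧ 2 ≤ ∑ χ ∈ q.1, w χ ∧
          ∑ χ ∈ q.1, w χ < 4) ∧
        ∑ χ ∈ Gt C x (kap M c), w χ < 6 * Q.length + 2

/-- (v2) as `S_root` -/
def V_root (m : ℕ) : Prop :=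
  ∀ (C : TropCircuit (Pr m)) (ρ : ℝ) (N D : ℕ), Solves C N ρ → D ≤ N → m ≤ N → ∀ τ : ℝ, τ < D →
    ∀ χ : Cut m, (∃ u, χ u = true) → (∃ u, χ u = false) → χ ∈ Gt C C.out τ

/-- (v3) as `S_inst`; the points are distinct, so pairs of distinct vertices have distance `≥ 1`, and
the weight is at most `(m + 1) 3 ρ (m + 1) ^ 2 + 3 ρ (m + 1) ^ 2` -/
def V_inst (m : ℕ) : Prop :=
  ∀ (C : TropCircuit (Pr m)) (ρ : ℝ) (N : ℕ), 0 ≤ ρ → (m + 1) ^ 2 ≤ N → Solves C N ρ → ∀ X : Cfg m,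
    ∃ M c, PC C C.out M c ∧ c ≠ ⊤ ∧ (S M (gap X) : ℝ) ≤ 3 * ρ * (m + 1) ∧
      kap M c ≤ 6 * ρ * (m + 1) ^ 3

/-- (v4) as `S_tail2`, with `Phi < 4` (`θ - (3 θ + θ ^ 2 + 1) / 14 ≥ 1 / 2` for `1 ≤ θ ≤ 4`) -/
def V_tail (m : ℕ) : Prop :=
  ∀ (L R : ℕ) (D : Finset (Cut m)), 1 ≤ L → 4 ≤ R →
    4 * L ^ 4 * (R ^ L) ^ 2 ≤ m + 1 → 1 ≤ Phi L R D → Phi L R D < 4 →
    ((univ.filter fun X => G L R D X ≤ ((m : ℝ) + 1) / 4).card : ℝ) ≤
      ((m : ℝ) + 1) ^ (m + 1) * Real.exp (-(((m : ℝ) + 1) / (288 * (R ^ L) ^ 2 * L ^ 4)))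

/-- (v5) CHAINS. A decreasing family `A τ` of sets of total weight at most `L` (`w univ ≤ L`) is
sandwiched by `6 L + 4` sets up to weight `1 / 3`: for `k = 0, …, 3 L + 1` take the largest member of
weight `≤ k / 3` and the smallest member of weight `≥ k / 3` (any set if there is none). -/
def V_chain (m : ℕ) : Prop :=
  ∀ (w : Cut m → ℝ) (L : ℕ), (∀ χ, 0 ≤ w χ) → ∑ χ, w χ ≤ L →
    ∀ A : ℝ → Finset (Cut m), (∀ σ τ, σ ≤ τ → A τ ⊆ A σ) →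
      ∃ B : Fin (6 * L + 4) → Finset (Cut m), ∀ τ, (∃ i, B i ⊆ A τ ∧
        ∑ χ ∈ A τ \ B i, w χ ≤ 1 / 3) ∧ ∃ j, A τ ⊆ B j ∧ ∑ χ ∈ B j \ A τ, w χ ≤ 1 / 3

/-- explicit form -/
def V_fin (m : ℕ) : Prop :=
  ∀ (L R N : ℕ) (C : TropCircuit (Pr m)) (ρ : ℝ), 1 ≤ L → 4 ≤ R →
    4 * L ^ 4 * (R ^ L) ^ 2 ≤ m + 1 → 0 ≤ ρ → (m + 1) ^ 2 ≤ N → 6 * ρ * (m + 1) ^ 3 + 1 < N →
    Solves C N ρ → 1008 * ρ + 3 ≤ L →
    Real.exp (((m : ℝ) + 1) / (288 * (R ^ L) ^ 2 * L ^ 4)) ≤ (10 * L * ((C.numAdd : ℝ) + 1)) ^ 3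

/-- (v7) THE THEOREM, as `main` of helper51 from `V_fin`; `N = n ^ 4` -/
def V_main : Prop :=
  ∃ K : ℝ, 1 < K ∧ ∀ ρ : ℝ, 1 ≤ ρ → ∀ n : ℕ, K ^ ρ ≤ n → ∀ C : TropCircuit (Fin n × Fin n),
    Solves C (n ^ 4) ρ → Real.exp (n / K ^ ρ) ≤ C.numAdd

end Pool.Agent.T9h21.DP
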